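import Pool.Agent.FS.SteinerGrowth.Seq
import Pool.Agent.FS.SuperQuad.Count

/-! The descent on the degree of a relation, and the bound for Steiner systems. -/

namespace Pool.Agent.FS.SteinerGrowth
open Finset Polynomial Filter

theorem first (A : ℕ) : ∃ (L : ℕ) (G : ℤ[X][X]), G ≠ 0 ∧ ∃ R : ℤ, ∀ x y : ℤ, R ≤ x → 0 ≤ y →
    y ≤ x ^ A → (∀ j < L, (x + j) ∣ ∏ i ∈ range (j + 2), (y + ((i : ℤ) - 1))) → ev G x y = 0 := by
  obtain ⟨L, hL⟩ := ((Real.tendsto_sum_range_one_div_nat_succ_atTop.eventually_gt_atTop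
    (6 * (A : ℝ) + 1)).and (eventually_gt_atTop 0)).exists
  obtain ⟨L, rfl⟩ : ∃ L', L = L' + 1 := ⟨L - 1, by omega⟩
  have hL1 := hL.1
  rw [sum_range_succ'] at hL1
  set N := (L + 2).factorial with hN
  have hN0 : 0 < N := Nat.factorial_pos _
  have hdv : ∀ j ∈ range L, (j + 2) ∣ N := fun j hj =>
    Nat.dvd_factorial (by omega) (by have := mem_range.mp hj; omega)
  have hM : 6 * A * N < ∑ j ∈ range L, N / (j + 2) := by
    have h1 : ((∑ j ∈ range L, N / (j + 2) : ℕ) : ℝ) =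
        N * ∑ j ∈ range L, 1 / (((j + 1 : ℕ) : ℝ) + 1) := by
      rw [Nat.cast_sum, mul_sum]
      refine sum_congr rfl fun j hj => ?_
      rw [Nat.cast_div (hdv j hj) (by positivity)]
      push_cast; ring
    have h2 : (6 * A * N : ℝ) < ((∑ j ∈ range L, N / (j + 2) : ℕ) : ℝ) := by
      rw [h1]
      have : (0 : ℝ) < N := by exact_mod_cast hN0
      simp only [CharP.cast_eq_zero, zero_add, div_one] at hL1
      nlinarith
    exact_mod_cast h2
  obtain ⟨E, hE⟩ : ∃ E, ∑ j ∈ range L, N / (j + 2) = E + A * (4 * N) :=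
    ⟨∑ j ∈ range L, N / (j + 2) - A * (4 * N), by
      have : A * (4 * N) ≤ 6 * A * N := by nlinarith [Nat.zero_le (A * N)]
      omega⟩
  have hmon : ∀ j : ℕ, (∏ i ∈ range (j + 2), (X + C ((i : ℤ) - 1))).Monic := fun j =>
    monic_prod_of_monic _ _ fun i _ => monic_X_add_C _
  have hdeg : ∀ j : ℕ, (∏ i ∈ range (j + 2), (X + C ((i : ℤ) - 1))).natDegree = j + 2 := fun j => by
    rw [natDegree_prod_of_monic _ _ fun i _ => monic_X_add_C _]
    simp only [natDegree_X_add_C, sum_const, smul_eq_mul, mul_one, card_range]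
  obtain ⟨G, hG, -, R, hR⟩ := vanish A (range L) (fun j => N / (j + 2)) _ hmon (fun _ => 1)
    (fun _ _ => one_ne_zero) E (4 * N) (by
      rw [sum_congr rfl (g := fun j => N / (j + 2) * N) fun j hj => by
        rw [hdeg, Nat.mul_div_cancel' (hdv j hj)], ← sum_mul, hE]
      rw [hE] at hM
      have : E + A * (4 * N) < E * 4 := by nlinarith [Nat.zero_le (A * N)]
      nlinarith) hE.ge
  refine ⟨L, G, hG, R, fun x y hx hy hyx hd => hR x y hx hy hyx fun j hj => ?_⟩
  rw [one_mul, eval_prod]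
  simpa only [eval_add, eval_X, eval_C] using hd j (mem_range.mp hj)

theorem noseq (A : ℕ) (κ w : ℕ → ℤ) (hκ : ∀ m : ℕ, (m : ℤ) ≤ κ m)
    (hlow : ∀ m, κ m * (κ m - 1) ≤ w m) (hup : ∀ m, w m ≤ κ m ^ A)
    (hd : ∀ m j : ℕ, j ≤ m → (κ m + j) ∣ ∏ i ∈ range (j + 2), (w m + ((i : ℤ) - 1))) : False := by
  have hbig : ∀ R : ℤ, ∀ᶠ m in atTop, R ≤ κ m := fun R =>
    (eventually_ge_atTop R.toNat).mono fun m hm => by have := hκ m; omega
  have hw0 : ∀ m, 0 ≤ w m := fun m => by
    have h1 := hlow m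
    have h2 : (0 : ℤ) ≤ κ m := (Int.natCast_nonneg m).trans (hκ m)
    rcases h2.eq_or_lt with h | h
    · rw [← h] at h1; simpa using h1
    · nlinarith
  have key : ∀ a : ℕ, ∀ F : ℤ[X][X], F ≠ 0 → F.natDegree = a →
      (∃ᶠ m in atTop, ev F (κ m) (w m) = 0) → False := by
    intro a
    induction a using Nat.strong_induction_on with
    | _ a ih =>
      intro F hF ha hfr
      by_cases hc : ∀ b < F.natDegree,
          (F.coeff b).natDegree + b ≤ F.leadingCoeff.natDegree + F.natDegree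
      · obtain ⟨R, hR⟩ := growth F hF hc
        obtain ⟨m, h1, h2⟩ := (hfr.and_eventually (hbig R)).exists
        exact hR _ _ h2 (hlow m) h1
      · push Not at hc
        obtain ⟨b, hb, hc⟩ := hc
        obtain ⟨j0, hj0⟩ := few F hF b hb hc
        choose K hK hKd using row_dvd F
        obtain ⟨a', ha'⟩ : ∃ a', a = a' + 1 := ⟨a - 1, by omega⟩
        obtain ⟨G, hG, hGd, R, hR⟩ := vanish A (Ico j0 (j0 + ((A * a * a + 1) + A * a))) (fun _ => 1)
          (fun j => ∏ i ∈ row F j, (X + C ((i : ℤ) - 1)))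
          (fun j => monic_prod_of_monic _ _ fun i _ => monic_X_add_C _) K (fun j _ => hK j)
          (A * a * a + 1) a (by
            refine lt_of_le_of_lt (sum_le_sum (g := fun _ => a') fun j hj => ?_) ?_
            · rw [natDegree_prod_of_monic _ _ fun i _ => monic_X_add_C _]
              simp only [natDegree_X_add_C, sum_const, smul_eq_mul, mul_one, one_mul]
              have := hj0 j (mem_Ico.mp hj).1
              omega
            · rw [sum_const, Nat.card_Ico, Nat.add_sub_cancel_left, smul_eq_mul, ha']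
              nlinarith [Nat.zero_le (A * a'), Nat.zero_le A])
          (by simp)
        refine ih _ hGd G hG rfl ?_
        refine (hfr.and_eventually ((hbig R).and
          (eventually_ge_atTop (j0 + ((A * a * a + 1) + A * a))))).mono fun m hm => ?_
        exact hR _ _ hm.2.1 (hw0 m) (hup m) fun j hj =>
          hKd j _ _ hm.1 (hd m j ((mem_Ico.mp hj).2.le.trans hm.2.2))
  obtain ⟨L, G, hG, R, hR⟩ := first A
  refine key _ G hG rfl (((hbig R).and (eventually_ge_atTop L)).mono fun m hm => ?_).frequently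
  exact hR _ _ hm.1 (hw0 m) (hup m) fun j hj => hd m j (hj.le.trans hm.2)

theorem arith (A : ℕ) : ∃ m : ℕ, ∀ k w : ℤ, (m : ℤ) ≤ k → k * (k - 1) ≤ w →
    (∀ j : ℕ, j ≤ m → (k + j) ∣ ∏ i ∈ range (j + 2), (w + ((i : ℤ) - 1))) → k ^ A < w := by
  by_contra h
  push Not at h
  choose κ w h1 h2 h3 h4 using h
  exact noseq A κ w h1 h2 h4 h3

open Pool.Agent.FS.SuperQuad in
theorem main (A : ℕ) : ∃ r0 C : ℕ, ∀ (n t k : ℕ) (𝔅 : Finset (Finset (Fin n))), St t k 𝔅 →
    r0 ≤ t → t < k → k < n → (k - t + 2) ^ A ≤ C * (n - t + 1) := by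
  obtain ⟨m, hm⟩ := arith A
  refine ⟨m + 2, (m + 1) ^ A, fun n t k 𝔅 h ht hk hv => ?_⟩
  have hC : 1 ≤ (m + 1) ^ A := Nat.one_le_pow _ _ (by omega)
  by_cases hs : k - t + 2 ≤ m
  · calc (k - t + 2) ^ A ≤ (m + 1) ^ A := Nat.pow_le_pow_left (by omega) _
      _ ≤ _ := Nat.le_mul_of_pos_right _ (by omega)
  obtain ⟨a, ha⟩ : ∃ a, k = t + a := ⟨k - t, by omega⟩
  obtain ⟨u, hu⟩ : ∃ u, n = t + u := ⟨n - t, by omega⟩
  have hcard : Fintype.card (Fin n) = t + u := by rw [Fintype.card_fin, hu]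
  have hdv : ∀ j : ℕ, j ≤ m → ((a : ℤ) + 2 + j) ∣
      ∏ i ∈ range (j + 2), ((u : ℤ) + 2 + ((i : ℤ) - 1)) := by
    intro j hj
    obtain ⟨b, e⟩ := h.asc a u (j + 2) (by omega) ha hcard
    rw [Nat.ascFactorial_eq_prod_range (u + 1), Nat.ascFactorial_succ] at e
    have e' := congrArg (Nat.cast : ℕ → ℤ) e
    push_cast at e'
    rw [prod_congr rfl (g := fun i : ℕ => (u : ℤ) + 1 + i) fun i _ => by ring, ← e']
    exact ⟨b * ((a + 1).ascFactorial (j + 1) : ℕ), by ring⟩
  obtain ⟨s, rfl⟩ : ∃ s, t = s + 2 := ⟨t - 2, by omega⟩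
  have hf := h.fisher hk (by rw [Fintype.card_fin]; exact hv)
  rw [hcard, show k - s = a + 2 by omega, show k - (s + 1) = a + 1 by omega,
    show s + 2 + u - (s + 1) = u + 1 by omega] at hf
  rw [show k - (s + 2) = a by omega] at hs ⊢
  rw [show n - (s + 2) = u by omega]
  have := hm (a + 2) (u + 2) (by omega) (by zify at hf; linarith) hdv
  have h2 : (a + 2) ^ A < u + 2 := by exact_mod_cast this
  calc (a + 2) ^ A ≤ u + 1 := by omega
    _ ≤ _ := Nat.le_mul_of_pos_left _ hC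

end Pool.Agent.FS.SteinerGrowth
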