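import Mathlib

/-! Auxiliary polynomials with prescribed vanishing along rows, found by counting. -/

namespace Pool.Agent.FS.SteinerGrowth
open Finset Polynomial

def NC (a b g : ℤ) : Prop := ∃ u v : ℤ, u * a + v * b = g

theorem NC.symm {a b g : ℤ} (h : NC a b g) : NC b a g := by
  obtain ⟨u, v, h⟩ := h; exact ⟨v, u, by linarith⟩

theorem NC.mul {a a' b g g' : ℤ} (h : NC a b g) (h' : NC a' b g') : NC (a * a') b (g * g') := by
  obtain ⟨u, v, rfl⟩ := h
  obtain ⟨u', v', rfl⟩ := h'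
  exact ⟨u * u', u * a * v' + v * u' * a' + v * v' * b, by ring⟩

theorem NC.pow {a b g : ℤ} (h : NC a b g) (m : ℕ) : NC (a ^ m) b (g ^ m) := by
  induction m with
  | zero => exact ⟨1, 0, by simp⟩
  | succ m ih => rw [pow_succ, pow_succ]; exact ih.mul h

theorem NC.prod (J : Finset ℕ) (f g : ℕ → ℤ) (b : ℤ) (h : ∀ j ∈ J, NC (f j) b (g j)) :
    NC (∏ j ∈ J, f j) b (∏ j ∈ J, g j) := by
  induction J using Finset.induction_on with
  | empty => exact ⟨1, 0, by simp⟩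
  | insert j J hj ih =>
    rw [prod_insert hj, prod_insert hj]
    exact (h j (mem_insert_self _ _)).mul (ih fun i hi => h i (mem_insert_of_mem hi))

theorem NC.dvd {a b g Z : ℤ} (h : NC a b g) (ha : a ∣ Z) (hb : b ∣ Z) : a * b ∣ g * Z := by
  obtain ⟨u, v, rfl⟩ := h
  obtain ⟨x, hx⟩ := ha
  obtain ⟨y, hy⟩ := hb
  exact ⟨u * y + v * x, by linear_combination (u * a) * hy + (v * b) * hx⟩

theorem prod_dvd (J : Finset ℕ) (μ : ℕ → ℕ) : ∃ g : ℤ, g ≠ 0 ∧ ∀ x Z : ℤ,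
    (∀ j ∈ J, (x + j) ^ μ j ∣ Z) → ∏ j ∈ J, (x + j) ^ μ j ∣ g * Z := by
  induction J using Finset.induction_on with
  | empty => exact ⟨1, one_ne_zero, by simp⟩
  | insert i J hi ih =>
    obtain ⟨g, hg, ih⟩ := ih
    refine ⟨(∏ j ∈ J, ((((j : ℤ) - i) ^ μ j) ^ μ i)) * g, mul_ne_zero (prod_ne_zero_iff.mpr ?_) hg, ?_⟩
    · intro j hj
      refine pow_ne_zero _ (pow_ne_zero _ (sub_ne_zero.mpr ?_))
      intro h
      exact hi ((Nat.cast_injective h : j = i) ▸ hj)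
    · intro x Z h
      rw [prod_insert hi, mul_comm ((x + i) ^ μ i), mul_assoc]
      refine NC.dvd (NC.prod J _ _ _ fun j _ => ?_) (ih x Z fun j hj => h j (mem_insert_of_mem hj))
        ((h i (mem_insert_self _ _)).mul_left g)
      have h0 : NC (x + j) (x + i) ((j : ℤ) - i) := ⟨1, -1, by ring⟩
      exact (((h0.pow (μ j)).symm).pow (μ i)).symm

theorem trunc (d z : ℤ) (e μ : ℕ) :
    d ^ μ ∣ (d + z) ^ e - ∑ l ∈ range μ, d ^ l * (z ^ (e - l) * (e.choose l : ℤ)) := by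
  have h1 : (d + z) ^ e = ∑ l ∈ range (μ + (e + 1)), d ^ l * (z ^ (e - l) * (e.choose l : ℤ)) := by
    rw [add_pow, ← sum_subset (s₁ := range (e + 1)) (s₂ := range (μ + (e + 1)))
      (range_mono (by omega))]
    · exact sum_congr rfl fun l _ => by ring
    · intro l _ hl
      rw [Nat.choose_eq_zero_of_lt (by simpa using hl)]; simp
  rw [h1, sum_range_add, add_sub_cancel_left]
  exact dvd_sum fun l _ => by rw [pow_add, mul_assoc]; exact dvd_mul_right _ _

theorem aux (J : Finset ℕ) (μ : ℕ → ℕ) (Q : ℕ → ℤ[X]) (hQ : ∀ j, (Q j).Monic) (E B : ℕ)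
    (hc : ∑ j ∈ J, μ j * ((Q j).natDegree * μ j) < E * B) :
    ∃ c : Fin E × Fin B → ℤ, c ≠ 0 ∧ ∀ j ∈ J, ∀ x y K : ℤ, (x + j) ∣ K * (Q j).eval y →
      (x + j) ^ μ j ∣ K ^ μ j * ∑ u, c u * (x ^ (u.1 : ℕ) * y ^ (u.2 : ℕ)) := by
  classical
  let p : ℕ → ℕ → Fin E × Fin B → ℤ[X] := fun j l u =>
    C ((-(j : ℤ)) ^ ((u.1 : ℕ) - l) * ((u.1 : ℕ).choose l : ℤ)) * X ^ (u.2 : ℕ)
  let ι := Σ j : J, Fin (μ j) × Fin ((Q j).natDegree * μ j)
  let φ : (Fin E × Fin B → ℤ) →ₗ[ℤ] (ι → ℤ) := LinearMap.pi fun i : ι =>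
    (lcoeff ℤ (i.2.2 : ℕ)) ∘ₗ (modByMonicHom (Q i.1 ^ μ i.1)) ∘ₗ
      (Fintype.linearCombination ℤ (p i.1 i.2.1))
  have hker : ∃ c, c ≠ 0 ∧ φ c = 0 := by
    by_contra hh
    push Not at hh
    have hinj : Function.Injective φ := by
      rw [injective_iff_map_eq_zero]
      intro c hc0
      by_contra hne
      exact hh c hne hc0
    have := LinearMap.finrank_le_finrank_of_injective hinj
    rw [Module.finrank_fintype_fun_eq_card, Module.finrank_fintype_fun_eq_card] at this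
    simp only [ι, Fintype.card_sigma, Fintype.card_prod, Fintype.card_fin] at this
    rw [Finset.sum_coe_sort J (fun j => μ j * ((Q j).natDegree * μ j))] at this
    omega
  obtain ⟨c, hc0, hφ⟩ := hker
  refine ⟨c, hc0, fun j hj x y K hK => ?_⟩
  have hdv : ∀ l < μ j, Q j ^ μ j ∣ Fintype.linearCombination ℤ (p j l) c := by
    intro l hl
    have hm : (Q j ^ μ j).Monic := (hQ j).pow _
    rw [← modByMonic_eq_zero_iff_dvd hm]
    ext i
    by_cases hi : i < (Q j).natDegree * μ j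
    · have := congrFun hφ ⟨⟨j, hj⟩, ⟨l, hl⟩, ⟨i, hi⟩⟩
      simpa [φ] using this
    · rw [coeff_zero]
      refine coeff_eq_zero_of_degree_lt (lt_of_lt_of_le (degree_modByMonic_lt _ hm) ?_)
      rw [degree_eq_natDegree hm.ne_zero, (hQ j).natDegree_pow]
      exact_mod_cast (by rw [mul_comm]; omega)
  have h1 : (x + j) ^ μ j ∣ K ^ μ j *
      ∑ l ∈ range (μ j), (x + j) ^ l * (Fintype.linearCombination ℤ (p j l) c).eval y := by
    rw [mul_sum]
    refine dvd_sum fun l hl => ?_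
    obtain ⟨W, hW⟩ := hdv l (mem_range.mp hl)
    rw [hW, eval_mul, eval_pow]
    have := pow_dvd_pow_of_dvd hK (μ j)
    rw [mul_pow] at this
    exact Dvd.dvd.trans this ⟨(x + j) ^ l * W.eval y, by ring⟩
  have h2 : (x + j) ^ μ j ∣ (∑ u, c u * (x ^ (u.1 : ℕ) * y ^ (u.2 : ℕ))) -
      ∑ l ∈ range (μ j), (x + j) ^ l * (Fintype.linearCombination ℤ (p j l) c).eval y := by
    simp only [Fintype.linearCombination_apply, eval_finsetSum, mul_sum]
    rw [sum_comm, ← sum_sub_distrib]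
    refine dvd_sum fun u _ => ?_
    have := (trunc (x + j) (-(j : ℤ)) u.1 (μ j)).mul_left (c u * y ^ (u.2 : ℕ))
    convert this using 1
    rw [mul_sub, mul_sum, show x + j + -(j : ℤ) = x by ring]
    congr 1
    · ring
    · exact sum_congr rfl fun l _ => by simp [p]; ring
  have := dvd_add h1 (h2.mul_left (K ^ μ j))
  rwa [← mul_add, add_sub_cancel] at this

/-- Value of a polynomial in two variables. -/
noncomputable def ev (G : ℤ[X][X]) (x y : ℤ) : ℤ := (G.map (evalRingHom x)).eval y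

theorem vanish (A : ℕ) (J : Finset ℕ) (μ : ℕ → ℕ) (Q : ℕ → ℤ[X]) (hQ : ∀ j, (Q j).Monic)
    (K : ℕ → ℤ) (hK : ∀ j ∈ J, K j ≠ 0) (E B : ℕ)
    (hc : ∑ j ∈ J, μ j * ((Q j).natDegree * μ j) < E * B) (hM : E + A * B ≤ ∑ j ∈ J, μ j) :
    ∃ G : ℤ[X][X], G ≠ 0 ∧ G.natDegree < B ∧ ∃ R : ℤ, ∀ x y : ℤ, R ≤ x → 0 ≤ y → y ≤ x ^ A →
      (∀ j ∈ J, (x + j) ∣ K j * (Q j).eval y) → ev G x y = 0 := by
  classical
  obtain ⟨c, hc0, hc⟩ := aux J μ Q hQ E B hc
  obtain ⟨g, hg, hp⟩ := prod_dvd J μ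
  obtain ⟨u0, hu0⟩ := Function.ne_iff.mp hc0
  refine ⟨∑ u, monomial (u.2 : ℕ) (monomial (u.1 : ℕ) (c u)), ?_, ?_,
    |g * ∏ j ∈ J, K j ^ μ j| * (∑ u, |c u|) + 1, ?_⟩
  · intro h
    have := congrArg (fun G : ℤ[X][X] => (G.coeff u0.2).coeff u0.1) h
    simp only [finsetSum_coeff, coeff_zero] at this
    rw [sum_eq_single u0] at this
    · simp at this; exact hu0 this
    · intro u _ hu
      rw [coeff_monomial]
      split_ifs with h2
      · rw [coeff_monomial, if_neg]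
        intro h1
        exact hu (Prod.ext (Fin.ext h1) (Fin.ext h2))
      · simp
    · simp
  · have hB : 0 < B := u0.2.pos
    refine lt_of_le_of_lt (natDegree_sum_le_of_forall_le _ _ (n := B - 1) fun u _ => ?_) (by omega)
    exact (natDegree_monomial_le _).trans (by have := u.2.2; omega)
  · intro x y hx hy hyx hd
    have hev : ev (∑ u : Fin E × Fin B, monomial (u.2 : ℕ) (monomial (u.1 : ℕ) (c u))) x y =
        ∑ u, c u * (x ^ (u.1 : ℕ) * y ^ (u.2 : ℕ)) := by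
      simp only [ev, Polynomial.map_sum, eval_finsetSum, map_monomial, coe_evalRingHom,
        eval_monomial]
      exact sum_congr rfl fun u _ => by ring
    rw [hev]
    set V := ∑ u, c u * (x ^ (u.1 : ℕ) * y ^ (u.2 : ℕ)) with hV
    by_contra hne
    have hS : 0 ≤ ∑ u, |c u| := sum_nonneg fun u _ => abs_nonneg _
    have hx1 : 1 ≤ x := by nlinarith [abs_nonneg (g * ∏ j ∈ J, K j ^ μ j)]
    have h1 := hp x ((∏ j ∈ J, K j ^ μ j) * V) fun j hj =>
      (hc j hj x y (K j) (hd j hj)).trans (mul_dvd_mul_right (dvd_prod_of_mem _ hj) V)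
    have hP : (∏ j ∈ J, K j ^ μ j) ≠ 0 := prod_ne_zero_iff.mpr fun j hj => pow_ne_zero _ (hK j hj)
    have h2 := Int.le_of_dvd (abs_pos.mpr (mul_ne_zero hg (mul_ne_zero hP hne))) ((dvd_abs _ _).mpr h1)
    have h3 : x ^ (E + A * B) ≤ ∏ j ∈ J, (x + j) ^ μ j := by
      calc x ^ (E + A * B) ≤ x ^ ∑ j ∈ J, μ j := pow_le_pow_right₀ hx1 hM
        _ = ∏ j ∈ J, x ^ μ j := (prod_pow_eq_pow_sum _ _ _).symm
        _ ≤ _ := prod_le_prod (fun j _ => by positivity) fun j _ =>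
            pow_le_pow_left₀ (by linarith) (by simp) _
    have h4 : |V| * x ≤ (∑ u, |c u|) * x ^ (E + A * B) := by
      rw [sum_mul]
      calc |V| * x ≤ (∑ u, |c u * (x ^ (u.1 : ℕ) * y ^ (u.2 : ℕ))|) * x :=
            mul_le_mul_of_nonneg_right (abs_sum_le_sum_abs _ _) (by linarith)
        _ ≤ _ := by
          rw [sum_mul]
          refine sum_le_sum fun u _ => ?_
          rw [abs_mul, mul_assoc, abs_of_nonneg (by positivity : 0 ≤ x ^ (u.1 : ℕ) * y ^ (u.2 : ℕ))]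
          refine mul_le_mul_of_nonneg_left ?_ (abs_nonneg _)
          have a1 : x ^ (u.1 : ℕ) * x ≤ x ^ E := by
            rw [← pow_succ]; exact pow_le_pow_right₀ hx1 u.1.2
          have a2 : y ^ (u.2 : ℕ) ≤ x ^ (A * B) := by
            calc y ^ (u.2 : ℕ) ≤ (x ^ A) ^ (u.2 : ℕ) := pow_le_pow_left₀ hy hyx _
              _ ≤ (x ^ A) ^ B := pow_le_pow_right₀ (one_le_pow₀ hx1) u.2.2.le
              _ = _ := (pow_mul _ _ _).symm
          calc x ^ (u.1 : ℕ) * y ^ (u.2 : ℕ) * x = (x ^ (u.1 : ℕ) * x) * y ^ (u.2 : ℕ) := by ring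
            _ ≤ x ^ E * x ^ (A * B) := mul_le_mul a1 a2 (by positivity) (by positivity)
            _ = _ := (pow_add _ _ _).symm
    rw [← mul_assoc, abs_mul] at h2
    have hpos : 0 < x ^ (E + A * B) := by positivity
    generalize |g * ∏ j ∈ J, K j ^ μ j| = H at *
    have hH : 0 ≤ H := by
      by_contra hneg
      nlinarith [abs_nonneg V]
    have h5 := mul_le_mul_of_nonneg_left h4 hH
    have h6 := mul_le_mul_of_nonneg_right (h3.trans h2) (by linarith : 0 ≤ x)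
    nlinarith

end Pool.Agent.FS.SteinerGrowth
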