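import Pool.Agent.FS.SteinerGrowth.Poly

/-! No sequence of parameters with polynomial growth meets more and more divisibility conditions. -/

namespace Pool.Agent.FS.SteinerGrowth
open Finset Polynomial Filter

theorem small (p q : ℤ[X]) (h : p.natDegree < q.natDegree) (K : ℕ) :
    ∃ R : ℤ, ∀ x : ℤ, R ≤ |x| → K * |p.eval x| ≤ |q.eval x| := by
  have h1 := (isLittleO_cobounded_of_degree_lt (degree_lt_degree h)).bound
    (c := 1 / ((K : ℝ) + 1)) (by positivity)
  obtain ⟨r, -, hr⟩ := (Metric.hasBasis_cobounded_compl_closedBall (0 : ℤ)).eventually_iff.mp h1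
  refine ⟨⌈r⌉ + 1, fun x hx => ?_⟩
  have hx' : x ∈ (Metric.closedBall (0 : ℤ) r)ᶜ := by
    simp only [Set.mem_compl_iff, mem_closedBall_zero_iff, not_le, Int.norm_eq_abs]
    have a : ((⌈r⌉ + 1 : ℤ) : ℝ) ≤ ((|x| : ℤ) : ℝ) := by exact_mod_cast hx
    have b := Int.le_ceil r
    push_cast at a
    linarith
  have h2 := hr hx'
  simp only [Int.norm_eq_abs] at h2
  have h3 : (K : ℝ) * |((p.eval x : ℤ) : ℝ)| ≤ |((q.eval x : ℤ) : ℝ)| := by
    rw [one_div, inv_mul_eq_div, le_div_iff₀ (by positivity)] at h2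
    nlinarith [abs_nonneg ((p.eval x : ℤ) : ℝ)]
  exact_mod_cast h3

theorem nonzero (T : ℤ[X]) (hT : T ≠ 0) : ∃ R : ℤ, ∀ x : ℤ, R ≤ |x| → T.eval x ≠ 0 := by
  obtain ⟨R, hR⟩ := small 1 (T * X) (by rw [natDegree_mul_X hT]; simp) 1
  refine ⟨R, fun x hx h => ?_⟩
  have := hR x hx
  simp [h] at this

theorem ev_eq (F : ℤ[X][X]) (x y : ℤ) :
    ev F x y = ∑ b ∈ range (F.natDegree + 1), (F.coeff b).eval x * y ^ b := by
  rw [ev, eval_map, eval₂_eq_sum_range]; rfl

/-- Growth: a relation whose coefficients have small degrees has no zero with `y ≥ x (x - 1)`. -/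
theorem growth (F : ℤ[X][X]) (hF : F ≠ 0)
    (h : ∀ b < F.natDegree, (F.coeff b).natDegree + b ≤ F.leadingCoeff.natDegree + F.natDegree) :
    ∃ R : ℤ, ∀ x y : ℤ, R ≤ x → x * (x - 1) ≤ y → ev F x y ≠ 0 := by
  have hT : F.leadingCoeff ≠ 0 := leadingCoeff_ne_zero.mpr hF
  obtain ⟨R0, hR0⟩ := nonzero _ hT
  have hb : ∀ b, ∃ R : ℤ, b < F.natDegree → ∀ x : ℤ, R ≤ |x| →
      ((F.natDegree + 1 : ℕ) : ℤ) * |(F.coeff b).eval x| ≤
        |(F.leadingCoeff * (X * (X - C 1)) ^ (F.natDegree - b)).eval x| := by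
    intro b
    by_cases hb : b < F.natDegree
    · have hm : (X * (X - C 1) : ℤ[X]).Monic := monic_X.mul (monic_X_sub_C 1)
      have hd : (X * (X - C 1) : ℤ[X]).natDegree = 2 := by
        rw [monic_X.natDegree_mul (monic_X_sub_C 1), natDegree_X, natDegree_X_sub_C]
      obtain ⟨R, hR⟩ := small (F.coeff b) (F.leadingCoeff * (X * (X - C 1)) ^ (F.natDegree - b))
        (by
          rw [natDegree_mul hT (hm.pow _).ne_zero, hm.natDegree_pow, hd]
          have := h b hb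
          omega) (F.natDegree + 1)
      exact ⟨R, fun _ => hR⟩
    · exact ⟨0, fun hh => absurd hh hb⟩
  choose R hR using hb
  refine ⟨|R0| + ∑ b ∈ range F.natDegree, |R b| + 2, fun x y hx hy => ?_⟩
  have hS : 0 ≤ ∑ b ∈ range F.natDegree, |R b| := sum_nonneg fun _ _ => abs_nonneg _
  have hx2 : 2 ≤ x := by linarith [abs_nonneg R0]
  have hax : |x| = x := abs_of_nonneg (by linarith)
  have hxx : 0 < x * (x - 1) := by nlinarith
  have hy0 : 0 < y := by linarith
  have hT0 := abs_pos.mpr (hR0 x (by rw [hax]; linarith [le_abs_self R0]))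
  rw [ev_eq, sum_range_succ, coeff_natDegree]
  intro h0
  have h1 : |F.leadingCoeff.eval x| * y ^ F.natDegree =
      |∑ b ∈ range F.natDegree, (F.coeff b).eval x * y ^ b| := by
    rw [eq_neg_of_add_eq_zero_left h0, abs_neg, abs_mul, abs_of_pos (pow_pos hy0 _)]
  have h2 : ∀ b ∈ range F.natDegree, ((F.natDegree + 1 : ℕ) : ℤ) * |(F.coeff b).eval x * y ^ b| ≤
      |F.leadingCoeff.eval x| * y ^ F.natDegree := by
    intro b hb
    have hb' := mem_range.mp hb
    have a1 := hR b hb' x (by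
      rw [hax]
      have := single_le_sum (f := fun b => |R b|) (fun _ _ => abs_nonneg _) hb
      linarith [le_abs_self (R b), abs_nonneg R0])
    simp only [eval_mul, eval_pow, eval_X, eval_sub, eval_C, abs_mul (eval x F.leadingCoeff)] at a1
    rw [abs_of_pos (pow_pos hxx _)] at a1
    have a2 : (x * (x - 1)) ^ (F.natDegree - b) ≤ y ^ (F.natDegree - b) :=
      pow_le_pow_left₀ hxx.le hy _
    have a3 : y ^ F.natDegree = y ^ (F.natDegree - b) * y ^ b := by
      rw [← pow_add]; congr 1; omega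
    rw [abs_mul, abs_of_pos (pow_pos hy0 _), a3, ← mul_assoc, ← mul_assoc]
    exact mul_le_mul_of_nonneg_right (a1.trans (mul_le_mul_of_nonneg_left a2 hT0.le))
      (pow_pos hy0 _).le
  have h3 := sum_le_sum h2
  rw [← mul_sum, sum_const, card_range, nsmul_eq_mul] at h3
  have h4 := abs_sum_le_sum_abs (fun b => (F.coeff b).eval x * y ^ b) (range F.natDegree)
  rw [← h1] at h4
  have h5 : 0 < |F.leadingCoeff.eval x| * y ^ F.natDegree := mul_pos hT0 (pow_pos hy0 _)
  push_cast at h3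
  have h6 := mul_le_mul_of_nonneg_left h4 (by positivity : (0 : ℤ) ≤ (F.natDegree : ℤ) + 1)
  nlinarith

/-- The points of row `j` on the curve. -/
noncomputable def row (F : ℤ[X][X]) (j : ℕ) : Finset ℕ :=
  (range (j + 2)).filter fun i : ℕ => ev F (-(j : ℤ)) (1 - (i : ℤ)) = 0

theorem coeff_bound (s : Finset ℕ) (z : ℤ) (hz : ∀ i ∈ s, |(i : ℤ) - 1| ≤ z) (b : ℕ)
    (hb : b ≤ s.card) :
    |(∏ i ∈ s, (X + C ((i : ℤ) - 1))).coeff b| ≤ 2 ^ s.card * z ^ (s.card - b) := by
  rw [Finset.prod_X_add_C_coeff _ _ hb]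
  refine (abs_sum_le_sum_abs _ _).trans ?_
  have h1 : ∀ t ∈ s.powersetCard (s.card - b), |∏ i ∈ t, ((i : ℤ) - 1)| ≤ z ^ (s.card - b) := by
    intro t ht
    rw [mem_powersetCard] at ht
    rw [abs_prod, ← ht.2, ← prod_const]
    exact prod_le_prod (fun _ _ => abs_nonneg _) fun i hi => hz i (ht.1 hi)
  have h2 := sum_le_sum h1
  rw [sum_const, card_powersetCard, nsmul_eq_mul] at h2
  refine h2.trans ?_
  have h3 : ((s.card.choose (s.card - b) : ℕ) : ℤ) ≤ 2 ^ s.card := by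
    exact_mod_cast Nat.choose_le_two_pow _ _
  by_cases h0 : s.card - b = 0
  · rw [h0] at h3 ⊢; simpa using h3
  · obtain ⟨i, hi⟩ := card_pos.mp (by omega : 0 < s.card)
    exact mul_le_mul_of_nonneg_right h3 (pow_nonneg ((abs_nonneg _).trans (hz i hi)) _)

/-- If some coefficient has large degree, far rows meet the curve in few grid points. -/
theorem few (F : ℤ[X][X]) (hF : F ≠ 0) (b : ℕ) (hb : b < F.natDegree)
    (h : F.leadingCoeff.natDegree + F.natDegree < (F.coeff b).natDegree + b) :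
    ∃ j0 : ℕ, ∀ j, j0 ≤ j → (row F j).card < F.natDegree := by
  have hT : F.leadingCoeff ≠ 0 := leadingCoeff_ne_zero.mpr hF
  obtain ⟨R0, hR0⟩ := nonzero _ hT
  obtain ⟨R, hR⟩ := small (F.leadingCoeff * X ^ (F.natDegree - b)) (F.coeff b)
    (by rw [natDegree_mul_X_pow _ hT]; omega) (2 ^ F.natDegree + 1)
  refine ⟨R0.toNat + R.toNat + 1, fun j hj => ?_⟩
  by_contra hc
  rw [not_lt] at hc
  have haj : |(-(j : ℤ))| = j := by simp
  have hT0 := abs_pos.mpr (hR0 (-(j : ℤ)) (by rw [haj]; omega))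
  have a1 := hR (-(j : ℤ)) (by rw [haj]; omega)
  obtain ⟨s, hs, hsc⟩ := exists_subset_card_eq hc
  set f := F.map (evalRingHom (-(j : ℤ))) with hf
  have hm : (∏ i ∈ s, (X + C ((i : ℤ) - 1))).Monic := monic_prod_of_monic _ _ fun i _ => monic_X_add_C _
  have hd : (∏ i ∈ s, (X + C ((i : ℤ) - 1))).natDegree = F.natDegree := by
    rw [natDegree_prod_of_monic _ _ fun i _ => monic_X_add_C _]
    simp only [natDegree_X_add_C, sum_const, smul_eq_mul, mul_one, hsc]
  have hlc : evalRingHom (-(j : ℤ)) F.leadingCoeff ≠ 0 := abs_pos.mp hT0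
  have hf0 : f ≠ 0 := by
    intro h0
    have := congrArg (fun g => g.coeff F.natDegree) h0
    simp only [hf, coeff_map, coeff_natDegree, coeff_zero] at this
    exact hlc this
  have hdv : (∏ i ∈ s, (X + C ((i : ℤ) - 1))) ∣ f := by
    refine Dvd.dvd.trans ?_ (prod_multiset_X_sub_C_dvd f)
    have e1 : (∏ i ∈ s, (X + C ((i : ℤ) - 1))) =
        ((s.val.map fun i : ℕ => 1 - (i : ℤ)).map fun a => X - C a).prod := by
      rw [Multiset.map_map, Finset.prod_eq_multiset_prod]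
      congr 1
      refine Multiset.map_congr rfl fun i _ => ?_
      simp only [Function.comp, map_sub]; ring
    rw [e1]
    refine Multiset.prod_dvd_prod_of_le (Multiset.map_le_map ?_)
    rw [Multiset.le_iff_subset (s.nodup.map fun a b hab => by
      have : (a : ℤ) = b := by linarith [hab]
      exact_mod_cast this)]
    intro a ha
    obtain ⟨i, hi, rfl⟩ := Multiset.mem_map.mp ha
    rw [mem_roots hf0]
    exact (mem_filter.mp (hs hi)).2
  have e2 := eq_leadingCoeff_mul_of_monic_of_dvd_of_natDegree_le hm hdv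
    (by rw [hd]; exact natDegree_map_le)
  have e3 := congrArg (fun g => g.coeff b) e2
  simp only [coeff_C_mul] at e3
  rw [hf, leadingCoeff_map_of_leadingCoeff_ne_zero _ hlc, coeff_map] at e3
  have a2 := coeff_bound s j (fun i hi => by
    have := mem_range.mp (mem_filter.mp (hs hi)).1
    rw [abs_le]; constructor <;> omega) b (by omega)
  rw [hsc] at a2
  simp only [coe_evalRingHom] at e3
  rw [e3, eval_mul, eval_pow, eval_X, abs_mul, abs_mul, abs_pow, haj] at a1
  have hj0 : (0 : ℤ) < (j : ℤ) ^ (F.natDegree - b) := pow_pos (by omega) _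
  have a3 := mul_le_mul_of_nonneg_left a2 hT0.le
  push_cast at a1
  nlinarith [mul_pos hT0 hj0]

theorem row_dvd (F : ℤ[X][X]) (j : ℕ) : ∃ K : ℤ, K ≠ 0 ∧ ∀ x y : ℤ, ev F x y = 0 →
    (x + j) ∣ ∏ i ∈ range (j + 2), (y + ((i : ℤ) - 1)) →
    (x + j) ∣ K * (∏ i ∈ row F j, (X + C ((i : ℤ) - 1))).eval y := by
  classical
  refine ⟨∏ i ∈ (range (j + 2)).filter fun i : ℕ => ¬ ev F (-(j : ℤ)) (1 - (i : ℤ)) = 0,
    ev F (-(j : ℤ)) (1 - (i : ℤ)), prod_ne_zero_iff.mpr fun i hi => (mem_filter.mp hi).2, ?_⟩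
  intro x y h0 hd
  have h1 : (x + j) ∣ ev F (-(j : ℤ)) y := by
    have : (x + j) ∣ ev F x y - ev F (-(j : ℤ)) y := by
      rw [ev_eq, ev_eq, ← sum_sub_distrib]
      refine dvd_sum fun b _ => ?_
      rw [← sub_mul]
      have := sub_dvd_eval_sub x (-(j : ℤ)) (F.coeff b)
      rw [sub_neg_eq_add] at this
      exact this.mul_right _
    rwa [h0, zero_sub, dvd_neg] at this
  have h2 : ∀ i : ℕ, ∃ W : ℤ, ev F (-(j : ℤ)) (1 - (i : ℤ)) ≡ (y + ((i : ℤ) - 1)) * W [ZMOD (x + j)] := by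
    intro i
    obtain ⟨W, hW⟩ := sub_dvd_eval_sub (1 - (i : ℤ)) y (F.map (evalRingHom (-(j : ℤ))))
    refine ⟨-W, (Int.modEq_iff_dvd).mpr ?_⟩
    have : (y + ((i : ℤ) - 1)) * -W - ev F (-(j : ℤ)) (1 - (i : ℤ)) = -ev F (-(j : ℤ)) y := by
      simp only [ev]; linear_combination -hW
    rw [this]; exact h1.neg_right
  choose W hW using h2
  have h3 := (Int.ModEq.prod (s := (range (j + 2)).filter fun i : ℕ => ¬ ev F (-(j : ℤ)) (1 - (i : ℤ)) = 0)
    fun i _ => hW i).mul_right ((∏ i ∈ row F j, (X + C ((i : ℤ) - 1))).eval y)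
  refine Int.modEq_zero_iff_dvd.mp (h3.trans (Int.modEq_zero_iff_dvd.mpr ?_))
  rw [← prod_filter_mul_prod_filter_not (range (j + 2))
    fun i : ℕ => ev F (-(j : ℤ)) (1 - (i : ℤ)) = 0] at hd
  rw [prod_mul_distrib, eval_prod]
  simp only [eval_add, eval_X, eval_C, row]
  refine hd.trans ⟨∏ i ∈ (range (j + 2)).filter fun i : ℕ => ¬ ev F (-(j : ℤ)) (1 - (i : ℤ)) = 0, W i, ?_⟩
  ring

end Pool.Agent.FS.SteinerGrowth
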